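import Pool.Agent.FS.MidRange6c7.Bound

namespace Pool.Agent.Results.MP_6c7e5c_co.FirstOrder

open Pool.Agent.Lib.MP_6c7e5c_co

/-- With `x = m ^ (1/n)`, `k = ⌊x⌋` and `G = k + log (x / k) / log (1 + 1 / k)` one has
`n G ≤ h(n,m) ≤ n G + C x ^ 2`. -/
theorem result : ∃ C : ℝ, ∀ n m : ℕ, 1 ≤ n → 1 ≤ m → m ≤ n.factorial →
    ∀ x : ℝ, x = (m : ℝ) ^ (1 / (n : ℝ)) →
      n * (⌊x⌋₊ + Real.log (x / ⌊x⌋₊) / Real.log (1 + 1 / ⌊x⌋₊)) ≤ h n m ∧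
      (h n m : ℝ) ≤ n * (⌊x⌋₊ + Real.log (x / ⌊x⌋₊) / Real.log (1 + 1 / ⌊x⌋₊)) + C * x ^ 2 :=
  ⟨_, fun _ _ hn hm hmn x hx => Pool.Agent.FS.MidRange6c7.two_sided hn hm hmn x hx⟩

end Pool.Agent.Results.MP_6c7e5c_co.FirstOrder
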