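import Pool.Agent.Lib.MP_6c7e5c_co.Sharp

namespace Pool.Agent.Results.MP_6c7e5c_co.SharpConstant

open Pool.Agent.Lib.MP_6c7e5c_co

/-- The least constant `C` with `h(n,m) ≤ C ℓ(m,n)` for all `n ≥ 1` and `1 ≤ m ≤ n!` is `e ^ 2`. -/
theorem result :
    IsLeast {C : ℝ | ∀ n m : ℕ, 1 ≤ n → 1 ≤ m → m ≤ n.factorial →
      (∃ w : List (Fin n), w.length = h n m ∧ m ≤ permCount n w) ∧
      m ≤ (ell m n).choose n ∧ (h n m : ℝ) ≤ C * ell m n} (Real.exp 2) :=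
  ⟨fun _ _ => upper, fun _ hC => sharp fun n hn => (hC n _ hn n.factorial_pos le_rfl).2.2⟩

end Pool.Agent.Results.MP_6c7e5c_co.SharpConstant
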